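import Mathlib

namespace Pool.Agent.Results.MP_02ec02_co.EvenOrder

open Equiv Equiv.Perm

/-- number of cycles of a permutation, fixed points included -/
def cyc {n : ℕ} [NeZero n] (σ : Perm (ZMod n)) : ℕ := Multiset.card σ.partition.parts

/-- sorting time of the class of `π`; the powers of the cycle `x ↦ x + 1` are the translations -/
noncomputable def tt {n : ℕ} [NeZero n] (π : Perm (ZMod n)) : ℕ :=
  sInf {m | ∃ i : ZMod n, m = n - cyc (π * Equiv.addLeft i)}

/-- the largest sorting time -/
noncomputable def t (n : ℕ) [NeZero n] : ℕ := Finset.univ.sup fun π : Perm (ZMod n) => tt π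

/-- number of fixed points -/
def fx {n : ℕ} [NeZero n] (σ : Perm (ZMod n)) : ℕ := (Finset.univ.filter fun x => σ x = x).card

theorem fx_supp {n : ℕ} [NeZero n] (σ : Perm (ZMod n)) : fx σ + σ.support.card = n := by
  have h := Finset.card_filter_add_card_filter_not (s := (Finset.univ : Finset (ZMod n)))
    (fun x => σ x = x)
  rw [Finset.card_univ, ZMod.card] at h
  exact h

theorem cyc_eq {n : ℕ} [NeZero n] (σ : Perm (ZMod n)) :
    cyc σ = Multiset.card σ.cycleType + fx σ := by
  rw [cyc, Equiv.Perm.parts_partition, Multiset.card_add, Multiset.card_replicate, ZMod.card]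
  have := fx_supp σ
  omega

theorem fx_le {n : ℕ} [NeZero n] (hn : 3 ≤ n) (σ : Perm (ZMod n)) (h : cyc σ ≤ 2) :
    fx σ + 1 ≤ cyc σ := by
  rw [cyc_eq] at h ⊢
  have : Multiset.card σ.cycleType ≠ 0 := by
    intro h0
    rw [Equiv.Perm.card_cycleType_eq_zero] at h0
    have h1 : fx σ = n := by
      have := fx_supp σ
      rw [h0, Equiv.Perm.support_one, Finset.card_empty] at this
      rw [h0]; omega
    omega
  omega

theorem sign_cyc {n : ℕ} [NeZero n] (hn : Even n) (σ : Perm (ZMod n)) :
    sign σ = (-1) ^ cyc σ := by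
  rw [Equiv.Perm.sign_of_cycleType, Equiv.Perm.sum_cycleType, cyc_eq]
  have h := fx_supp σ
  have e : σ.support.card + Multiset.card σ.cycleType + 2 * fx σ =
      (Multiset.card σ.cycleType + fx σ) + n := by omega
  have h1 : (-1 : ℤˣ) ^ (σ.support.card + Multiset.card σ.cycleType + 2 * fx σ) =
      (-1) ^ ((Multiset.card σ.cycleType + fx σ) + n) := by rw [e]
  rw [pow_add, pow_mul, pow_add _ _ n, hn.neg_one_pow] at h1
  simpa using h1

theorem sign_add_one {m : ℕ} (hm : Odd m) : sign (Equiv.addLeft (1 : ZMod (m + 1))) = -1 := by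
  have h : (Equiv.addLeft (1 : ZMod (m + 1)) : Perm (ZMod (m + 1))) = finRotate (m + 1) := by
    apply Equiv.ext
    intro x
    exact (add_comm (1 : Fin (m + 1)) x).trans (finRotate_succ_apply x).symm
  rw [h]
  have := sign_finRotate (m + 1)
  rw [Nat.add_sub_cancel, hm.neg_one_pow] at this
  exact this

theorem sum_fx {n : ℕ} [NeZero n] (π : Perm (ZMod n)) :
    ∑ i : ZMod n, fx (π * Equiv.addLeft i) = n := by
  have h : ∀ i : ZMod n, fx (π * Equiv.addLeft i) = ∑ x : ZMod n, if π (i + x) = x then 1 else 0 := by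
    intro i
    rw [fx, Finset.card_filter]
    rfl
  rw [Finset.sum_congr rfl fun i _ => h i, Finset.sum_comm]
  have h2 : ∀ x : ZMod n, ∑ i : ZMod n, (if π (i + x) = x then 1 else 0) = 1 := by
    intro x
    rw [← Finset.card_filter, Finset.card_eq_one]
    refine ⟨π⁻¹ x - x, ?_⟩
    ext i
    simp only [Finset.mem_filter, Finset.mem_univ, true_and, Finset.mem_singleton]
    constructor
    · intro h
      rw [eq_sub_iff_add_eq]
      exact Equiv.Perm.eq_inv_iff_eq.mpr h
    · intro h; rw [h]; simp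
  rw [Finset.sum_congr rfl fun x _ => h2 x]
  simp [ZMod.card]

theorem exists_three {n : ℕ} [NeZero n] (h4 : 4 ≤ n) (he : Even n) (π : Perm (ZMod n)) :
    ∃ i : ZMod n, 3 ≤ cyc (π * Equiv.addLeft i) := by
  by_contra hcon
  push Not at hcon
  have hpair : ∀ i : ZMod n, fx (π * Equiv.addLeft i) + fx (π * Equiv.addLeft (i + 1)) ≤ 1 := by
    intro i
    have a1 := fx_le (by omega) (π * Equiv.addLeft i) (by have := hcon i; omega)
    have a2 := fx_le (by omega) (π * Equiv.addLeft (i + 1)) (by have := hcon (i + 1); omega)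
    have b1 := hcon i
    have b2 := hcon (i + 1)
    have s1 := sign_cyc he (π * Equiv.addLeft i)
    have s2 := sign_cyc he (π * Equiv.addLeft (i + 1))
    have hs : sign (π * Equiv.addLeft (i + 1)) = - sign (π * Equiv.addLeft i) := by
      have e : (Equiv.addLeft (i + 1) : Perm (ZMod n)) = Equiv.addLeft i * Equiv.addLeft 1 := by
        apply Equiv.ext
        intro x
        exact add_assoc i 1 x
      have h1 : sign (Equiv.addLeft (1 : ZMod n)) = -1 := by
        obtain ⟨m, rfl⟩ : ∃ m, n = m + 1 := ⟨n - 1, by omega⟩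
        apply sign_add_one
        rw [← Nat.not_even_iff_odd]
        intro hm
        exact (Nat.even_add_one.mp he) hm
      rw [e, ← mul_assoc, Equiv.Perm.sign_mul, h1]
      simp
    rw [s1, s2] at hs
    have hc : ∀ k l : ℕ, k < 3 → l < 3 → 1 ≤ k → 1 ≤ l → ((-1 : ℤˣ) ^ l = -(-1) ^ k) → k + l ≤ 3 := by
      intro k l hk hl hk1 hl1 h
      interval_cases k <;> interval_cases l <;> simp_all
    have := hc _ _ b1 b2 (by omega) (by omega) hs
    omega
  have hsum : ∑ i : ZMod n, (fx (π * Equiv.addLeft i) + fx (π * Equiv.addLeft (i + 1))) ≤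
      ∑ _i : ZMod n, 1 := Finset.sum_le_sum fun i _ => hpair i
  rw [Finset.sum_add_distrib, sum_fx] at hsum
  have hshift : ∑ i : ZMod n, fx (π * Equiv.addLeft (i + 1)) = n :=
    (Fintype.sum_equiv (Equiv.addRight (1 : ZMod n)) _ (fun i => fx (π * Equiv.addLeft i))
      (fun i => rfl)).trans (sum_fx π)
  rw [hshift] at hsum
  simp [ZMod.card] at hsum
  omega

theorem result : ∀ (n : ℕ) [NeZero n], 4 ≤ n → Even n → t n ≤ n - 3 := by
  intro n _ h4 he
  apply Finset.sup_le
  intro π _
  obtain ⟨i, hi⟩ := exists_three h4 he π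
  have : tt π ≤ n - cyc (π * Equiv.addLeft i) := Nat.sInf_le ⟨i, rfl⟩
  omega

end Pool.Agent.Results.MP_02ec02_co.EvenOrder
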