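import Pool.Agent.Q95.TreeProf4

set_option autoImplicit false

namespace Pool.Agent.Results.MP_b90d6a_co.PathZeroStarOne

open SimpleGraph Filter Topology Finset
open Pool.Agent.Q95.TreeProf

/-- `c(H, T)`: the number of vertex sets of `T` that induce a copy of `H`. -/
noncomputable def copies {V : Type} {k : ℕ} (H : SimpleGraph (Fin k)) (T : SimpleGraph V) : ℕ :=
  Nat.card {U : Finset V // Nonempty (T.induce (U : Set V) ≃g H)}

/-- `Z_k(T)`: the number of `k`-element vertex sets of `T` that induce a tree. -/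
noncomputable def total {V : Type} (k : ℕ) (T : SimpleGraph V) : ℕ :=
  Nat.card {U : Finset V // U.card = k ∧ (T.induce (U : Set V)).IsTree}

/-- The limit set of `k`-profiles; the coordinates are indexed by the trees with vertex
set `Fin k`. -/
def limitSet (k : ℕ) : Set ({H : SimpleGraph (Fin k) // H.IsTree} → ℝ) :=
  {p | ∃ (n : ℕ → ℕ) (T : ∀ i, SimpleGraph (Fin (n i))), (∀ i, (T i).IsTree) ∧
    Tendsto n atTop atTop ∧
    ∀ H, Tendsto (fun i => (copies H.1 (T i) : ℝ) / total k (T i)) atTop (𝓝 (p H))}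

section
open scoped Classical
variable {V : Type} [Fintype V]

lemma card_of_iso (T : SimpleGraph V) (k : ℕ) (H : SimpleGraph (Fin k)) (U : Finset V)
    (h : Nonempty (T.induce (U : Set V) ≃g H)) : U.card = k := by
  obtain ⟨e⟩ := h
  have := Fintype.card_congr e.toEquiv
  simpa using this

lemma copies_eq (T : SimpleGraph V) (k : ℕ) (H : SimpleGraph (Fin k)) : copies H T =
    (univ.filter (fun U : Finset V => U.card = k ∧ Nonempty (T.induce (U : Set V) ≃g H))).card := by
  rw [copies, Nat.card_eq_fintype_card, Fintype.card_subtype]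
  congr 1
  ext U
  simp only [Finset.mem_filter, Finset.mem_univ, true_and]
  exact ⟨fun h => ⟨card_of_iso T k H U h, h⟩, fun h => h.2⟩

lemma total_eq (T : SimpleGraph V) (k : ℕ) : total k T =
    (univ.filter (fun U : Finset V => U.card = k ∧ (T.induce (U : Set V)).IsTree)).card := by
  rw [total, Nat.card_eq_fintype_card, Fintype.card_subtype]

lemma copies_le_total (T : SimpleGraph V) (k : ℕ) (H : SimpleGraph (Fin k)) (hH : H.IsTree) :
    copies H T ≤ total k T := by
  rw [copies_eq, total_eq]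
  refine Finset.card_le_card (fun U hU => ?_)
  rw [Finset.mem_filter] at hU ⊢
  obtain ⟨h1, h2, ⟨e⟩⟩ := hU
  exact ⟨h1, h2, e.isTree_iff.2 hH⟩

lemma total_le (T : SimpleGraph V) (k : ℕ) :
    total k T ≤ (starSets T k).card + (nonStarSets T k).card := by
  rw [total_eq]
  refine le_trans (Finset.card_le_card ?_) (Finset.card_union_le _ _)
  intro U hU
  rw [Finset.mem_filter] at hU
  rw [Finset.mem_union, starSets, nonStarSets, Finset.mem_filter, Finset.mem_filter]
  by_cases h : ∃ v, StarAt T v U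
  · exact Or.inl ⟨hU.1, hU.2.1, h⟩
  · exact Or.inr ⟨hU.1, hU.2.1, hU.2.2.connected, h⟩

lemma star_le_copies (T : SimpleGraph V) (k : ℕ) (hk : 1 ≤ k) :
    (starSets T k).card ≤ copies (starGraph (⟨0, hk⟩ : Fin k)) T := by
  rw [copies_eq]
  refine Finset.card_le_card (fun U hU => ?_)
  rw [starSets, Finset.mem_filter] at hU
  rw [Finset.mem_filter]
  obtain ⟨h1, h2, v, hv⟩ := hU
  exact ⟨h1, h2, star_iso T k hk U h2 v hv⟩

lemma path_eq_copies (T : SimpleGraph V) (k : ℕ) :
    (pathSets T k).card = copies (pathGraph k) T := by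
  rw [copies_eq, pathSets]

/-- The quantitative form, one tree. -/
lemma quant (k : ℕ) (hk : 3 ≤ k) (ε : ℝ) (hε : 0 < ε) : ∃ (C : ℝ) (n₀ : ℕ),
    ∀ (V : Type) [Fintype V] (T : SimpleGraph V), T.IsTree → n₀ ≤ Fintype.card V →
      1 - (copies (starGraph (⟨0, by omega⟩ : Fin k)) T : ℝ) / total k T ≤
        ε + C * ((copies (pathGraph k) T : ℝ) / total k T) := by
  obtain ⟨C, n₀, hC, h⟩ := main k hk ε hε
  refine ⟨C, n₀, ?_⟩
  intro V _ T hT hn
  obtain ⟨h1, h2⟩ := h V T hT hn
  have h3 := star_le_copies T k (by omega)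
  have h4 := path_eq_copies T k
  have h5 := copies_le_total T k (starGraph (⟨0, by omega⟩ : Fin k)) (isTree_starGraph _)
  have h6 := copies_le_total T k (pathGraph k) (isTree_path k (by omega))
  have h7 := total_le T k
  have hZ : 0 < total k T := by omega
  have hZ' : (0 : ℝ) < (total k T : ℝ) := by exact_mod_cast hZ
  have h3' : ((starSets T k).card : ℝ) ≤ (copies (starGraph (⟨0, by omega⟩ : Fin k)) T : ℝ) := by
    exact_mod_cast h3
  have h5' : (copies (starGraph (⟨0, by omega⟩ : Fin k)) T : ℝ) ≤ (total k T : ℝ) := by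
    exact_mod_cast h5
  have h7' : (total k T : ℝ) ≤ ((starSets T k).card : ℝ) + ((nonStarSets T k).card : ℝ) := by
    exact_mod_cast h7
  rw [h4] at h1
  have h8 : ε * ((starSets T k).card : ℝ) ≤ ε * (total k T : ℝ) :=
    mul_le_mul_of_nonneg_left (h3'.trans h5') hε.le
  rw [mul_div_assoc', ← sub_nonneg]
  have h9 : 0 ≤ (ε * (total k T : ℝ) + C * (copies (pathGraph k) T : ℝ) -
      ((total k T : ℝ) - (copies (starGraph (⟨0, by omega⟩ : Fin k)) T : ℝ))) / (total k T : ℝ) := by
    apply div_nonneg _ hZ'.le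
    linarith
  have h10 : (ε * (total k T : ℝ) + C * (copies (pathGraph k) T : ℝ) -
      ((total k T : ℝ) - (copies (starGraph (⟨0, by omega⟩ : Fin k)) T : ℝ))) / (total k T : ℝ) =
      ε + C * (copies (pathGraph k) T : ℝ) / (total k T : ℝ) -
      (1 - (copies (starGraph (⟨0, by omega⟩ : Fin k)) T : ℝ) / (total k T : ℝ)) := by
    field_simp
  linarith

end

/-- Let `k ≥ 4`. (1) For every `ε > 0` there are `C, n₀` such that in every tree with at least `n₀`
vertices, `1 - (star density) ≤ ε + C * (path density)`. (2) For every sequence of finite trees whose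
numbers of vertices tend to infinity, if the density of the path with `k` vertices tends to `0`,
then the density of the star with `k` vertices tends to `1`. (3) Every `p` in the limit set of
`k`-profiles with `p_path = 0` has `p_star = 1`. -/
theorem result (k : ℕ) (hk : 4 ≤ k) :
    (∀ ε : ℝ, 0 < ε → ∃ (C : ℝ) (n₀ : ℕ), ∀ (V : Type) [Fintype V] (T : SimpleGraph V),
      T.IsTree → n₀ ≤ Fintype.card V →
      1 - (copies (starGraph (⟨0, by omega⟩ : Fin k)) T : ℝ) / total k T ≤
        ε + C * ((copies (pathGraph k) T : ℝ) / total k T)) ∧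
    (∀ (V : ℕ → Type) [∀ i, Fintype (V i)] (T : ∀ i, SimpleGraph (V i)), (∀ i, (T i).IsTree) →
      Tendsto (fun i => Fintype.card (V i)) atTop atTop →
      Tendsto (fun i => (copies (pathGraph k) (T i) : ℝ) / total k (T i)) atTop (𝓝 0) →
      Tendsto (fun i => (copies (starGraph (⟨0, by omega⟩ : Fin k)) (T i) : ℝ) / total k (T i))
        atTop (𝓝 1)) ∧
    (∀ p ∈ limitSet k, p ⟨pathGraph k, isTree_path k (by omega)⟩ = 0 →
      p ⟨starGraph (⟨0, by omega⟩ : Fin k), isTree_starGraph _⟩ = 1) := by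
  have h1 := quant k (by omega)
  have h2 : ∀ (V : ℕ → Type) [∀ i, Fintype (V i)] (T : ∀ i, SimpleGraph (V i)),
      (∀ i, (T i).IsTree) → Tendsto (fun i => Fintype.card (V i)) atTop atTop →
      Tendsto (fun i => (copies (pathGraph k) (T i) : ℝ) / total k (T i)) atTop (𝓝 0) →
      Tendsto (fun i => (copies (starGraph (⟨0, by omega⟩ : Fin k)) (T i) : ℝ) / total k (T i))
        atTop (𝓝 1) := by
    intro V _ T hT hV hp
    rw [Metric.tendsto_atTop]
    intro ε hε
    obtain ⟨C, n₀, hC⟩ := h1 (ε / 2) (by positivity)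
    have hp' : Tendsto (fun i => C * ((copies (pathGraph k) (T i) : ℝ) / total k (T i))) atTop
        (𝓝 0) := by
      have := hp.const_mul C
      rwa [mul_zero] at this
    have e1 : ∀ᶠ i in atTop, C * ((copies (pathGraph k) (T i) : ℝ) / total k (T i)) < ε / 2 :=
      hp'.eventually (gt_mem_nhds (by positivity))
    have e2 : ∀ᶠ i in atTop, n₀ ≤ Fintype.card (V i) := hV.eventually_ge_atTop n₀
    obtain ⟨N, hN⟩ := (e1.and e2).exists_forall_of_atTop
    refine ⟨N, fun i hi => ?_⟩
    obtain ⟨g1, g2⟩ := hN i hi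
    have g3 := hC (V i) (T i) (hT i) g2
    have g4 : (copies (starGraph (⟨0, by omega⟩ : Fin k)) (T i) : ℝ) / total k (T i) ≤ 1 := by
      apply div_le_one_of_le₀ _ (by positivity)
      exact_mod_cast copies_le_total (T i) k _ (isTree_starGraph _)
    rw [Real.dist_eq, abs_lt]
    constructor <;> linarith
  refine ⟨fun ε hε => ?_, h2, ?_⟩
  · exact h1 ε hε
  · rintro p ⟨n, T, hT, hn, hlim⟩ hp0
    have h3 := hlim ⟨pathGraph k, isTree_path k (by omega)⟩
    rw [hp0] at h3
    have h4 := h2 (fun i => Fin (n i)) T hT (by simpa using hn) h3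
    exact tendsto_nhds_unique (hlim ⟨starGraph (⟨0, by omega⟩ : Fin k), isTree_starGraph _⟩) h4

end Pool.Agent.Results.MP_b90d6a_co.PathZeroStarOne
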