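import Mathlib

/-!
# Divisibility of `binom (kn+ln) (kn)` by `ln+1` (MP_fced27_nt, Q1)
-/

set_option autoImplicit false

namespace Pool.Agent.Results.MP_fced27_nt.PropertyD

/-- `(k, l)` has property D: `l n + 1` divides `binom (kn+ln) (kn)` for all large `n`. -/
def HasD (k l : ℕ) : Prop :=
  ∃ N : ℕ, ∀ n : ℕ, N ≤ n → (l * n + 1) ∣ (k * n + l * n).choose (k * n)

theorem not_dvd_choose {p : ℕ} (hp : p.Prime) (e : ℕ) :
    ∀ j : ℕ, j ≤ p ^ e - 1 → ¬ p ∣ (p ^ e - 1).choose j := by
  have hpos : 0 < p ^ e := pow_pos hp.pos e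
  intro j
  induction j with
  | zero => intro _; rw [Nat.choose_zero_right]; exact hp.one_lt.ne' ∘ Nat.dvd_one.1
  | succ j ih =>
    intro hj hd
    apply ih (by omega)
    have h1 : p ∣ (p ^ e).choose (j + 1) := hp.dvd_choose_pow (by omega) (by omega)
    have h2 : (p ^ e).choose (j + 1) = (p ^ e - 1).choose j + (p ^ e - 1).choose (j + 1) := by
      conv_lhs => rw [show p ^ e = (p ^ e - 1) + 1 by omega]
      rw [Nat.choose_succ_succ]
    rw [h2] at h1
    exact (Nat.dvd_add_left hd).1 h1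

/-- For positive integers `k, l`: if `(k, l)` has property D, then every prime factor of `k`
divides `l`. -/
theorem result (k l : ℕ) (hk : 0 < k) (hl : 0 < l) (hD : HasD k l) :
    ∀ p : ℕ, p.Prime → p ∣ k → p ∣ l := by
  intro p hp hpk
  by_contra hpl
  obtain ⟨N, hN⟩ := hD
  have hd : Nat.Coprime p (k + l) := by
    rw [hp.coprime_iff_not_dvd]
    intro h
    exact hpl ((Nat.dvd_add_right hpk).1 h)
  have hphi : 0 < (k + l).totient := Nat.totient_pos.2 (by omega)
  set e := (k + l).totient * (N * (k + l) + 1) with he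
  have hmod : p ^ e ≡ 1 [MOD (k + l)] := by
    rw [he, pow_mul]
    have := (Nat.ModEq.pow_totient hd).pow (N * (k + l) + 1)
    rwa [one_pow] at this
  have hpos : 0 < p ^ e := pow_pos hp.pos e
  have hdvd : (k + l) ∣ p ^ e - 1 := (Nat.modEq_iff_dvd' hpos).1 hmod.symm
  obtain ⟨n, hn⟩ := hdvd
  have he1 : N * (k + l) + 1 ≤ e := by
    rw [he]; exact Nat.le_mul_of_pos_left _ hphi
  have hlt : e < p ^ e := Nat.lt_pow_self hp.one_lt
  have hnN : N ≤ n := by
    by_contra hlt'
    push Not at hlt'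
    have : (k + l) * n ≤ N * (k + l) := by
      rw [mul_comm]; exact Nat.mul_le_mul_right _ hlt'.le
    omega
  have h1 := hN n hnN
  have h2 : p ∣ l * n + 1 := by
    have h3 : p ∣ p ^ e := dvd_pow_self p (by omega)
    have h4 : p ^ e = k * n + (l * n + 1) := by
      have : (k + l) * n = k * n + l * n := add_mul k l n
      omega
    rw [h4] at h3
    exact (Nat.dvd_add_right (hpk.mul_right n)).1 h3
  have h5 : k * n + l * n = p ^ e - 1 := by rw [hn, add_mul]
  rw [h5] at h1
  exact not_dvd_choose hp e (k * n) (by omega) (h2.trans h1)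

end Pool.Agent.Results.MP_fced27_nt.PropertyD
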